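import Pool.Agent.X263.AL.Stm
import Pool.Agent.Results.MP_9b502d_nt.LargeCriticalHeight

/-!
# Project AL, second part: the intrinsic form of the theorem

`∃ N (n, d)` for all maps `p / q` over `L` which are not isotrivial and no iterate of which has an
exceptional normal form. Statements of the jobs.
-/

set_option autoImplicit false

namespace Pool.Agent.X263.AL

open Finset Polynomial Pool.Agent.W277.UH
open Pool.Agent.X328.GN (Ix nu de wrA hm it)
open Pool.Agent.Results.MP_9b502d_nt.LargeCriticalHeight (Conjugate IsotrivialOver)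

universe u v w

noncomputable section

/-- **ITER**: the iterates of any map. Take `P = (it d p q l).1`, `R = (it d p q l).2`. Induction on `l`:
for every point `x` over an algebraic closure `(P_l (x), R_l (x)) ≠ (0, 0)`, and the coefficients of
degree `d ^ l` are not both `0`, because the forms `∑ p_i S ^ i T ^ (d - i)`, `∑ q_i S ^ i T ^ (d - i)` have no
common zero. -/
def S_ITER : Prop := ∀ (K : Type u) [Field K] (d : ℕ), 1 ≤ d → ∀ p q : K[X], IsCoprime p q →
  max p.natDegree q.natDegree = d → ∀ l : ℕ, ∃ P R : K[X], IsCoprime P R ∧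
    max P.natDegree R.natDegree = d ^ l ∧
    ∀ z : Option K, ratP1 P R (d ^ l) z = (ratP1 p q d)^[l] z

/-- **CYC**: cycles of prime length (finitely many exceptions). Proof: Let `l` be a prime such that no
fixed point of `f` has a multiplier which is a primitive `l`-th root of unity (a fixed point
excludes at most one prime, there are at most `d + 1` fixed points). If every fixed point of `f^l`
were a fixed point of `f`, then, as the multiplicity of a fixed point of `f` as a fixed point of `f^l` is
the same as for `f` (multiplier `≠ 1`: both are `1`; multiplier `1`: `f (z) = z + c z ^ m + ...` gives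
`f^l (z) = z + l c z ^ m + ...`), `d ^ l + 1 = d + 1`. It may help to move a point which is not fixed
by `f^l` to `∞` (then `P - X R` has degree exactly `d ^ l + 1`), or to count with
`P - X R` in local coordinates. -/
def S_CYC : Prop := ∀ (K : Type u) [Field K] [CharZero K] [IsAlgClosed K] (d : ℕ), 2 ≤ d →
  ∀ p q : K[X], IsCoprime p q → max p.natDegree q.natDegree = d →
  ∃ S : Finset ℕ, S.card ≤ d + 1 ∧ ∀ l : ℕ, l.Prime → l ∉ S →
    ∃ z : Option K, (ratP1 p q d)^[l] z = z ∧ ratP1 p q d z ≠ z

/-- **THREE**: from CYC. One of the first `d + 2` primes is not in `S`; the cycle of length `l` has `l`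
points, and for `l = 2` add a fixed point of `f`. -/
def S_THREE : Prop := ∀ d : ℕ, 2 ≤ d → ∃ B : ℕ, ∀ (K : Type u) [Field K] [CharZero K]
  [IsAlgClosed K], ∀ p q : K[X], IsCoprime p q → max p.natDegree q.natDegree = d →
  ∃ l : ℕ, 1 ≤ l ∧ l ≤ B ∧ ∃ z : Fin 3 → Option K, Function.Injective z ∧
    ∀ i, (ratP1 p q d)^[l] (z i) = z i

/-- **INF**: from CYC: infinitely many periodic points. -/
def S_INF : Prop := ∀ (K : Type u) [Field K] [CharZero K] [IsAlgClosed K] (d : ℕ), 2 ≤ d →
  ∀ p q : K[X], IsCoprime p q → max p.natDegree q.natDegree = d →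
  {z : Option K | ∃ n : ℕ, 1 ≤ n ∧ (ratP1 p q d)^[n] z = z}.Infinite

/-- **NRM**: the normal form for three different fixed points in the projective line (compare
`Pool.Agent.X328.GN.S_NORM` for finite points). -/
def S_NRM : Prop := ∀ (K : Type u) [Field K] [CharZero K] (D : ℕ), 2 ≤ D → ∀ P R : K[X],
  IsCoprime P R → max P.natDegree R.natDegree = D → ∀ z : Fin 3 → Option K,
  Function.Injective z → (∀ i, ratP1 P R D (z i) = z i) →
  ∃ κ : Ix D → K, IsCoprime (nu D κ) (de D κ) ∧ Conjugate P R (nu D κ) (de D κ) D

/-- **ISO**: a map with an isotrivial iterate is isotrivial (from INF). Proof: let `k'` be the set of the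
elements of `K` algebraic over `k` (an algebraically closed field). After conjugation (`t_CNJ`) the
periodic points of `f` are those of `nu κ / de κ`, so infinitely many, all in `k' ∪ {∞}`, and `f` maps
periodic points to periodic points. So the conjugate `f = p₁ / q₁` satisfies `p₁ (z) = w q₁ (z)` for
infinitely many `z`, `w` in `k'`. Let a coefficient of `p₁` or `q₁` be `1` and let `φ : K → k'` be `k'`-linear
with `φ (1) = 1`; then `p₁^φ (z) = w q₁^φ (z)`, so `p₁ q₁^φ = q₁ p₁^φ`, so `p₁^φ = p₁`, `q₁^φ = q₁`. -/
def S_ISO : Prop := ∀ (k : Type v) (K : Type u) [Field k] [CharZero k] [Field K] [CharZero K]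
  [IsAlgClosed K] [Algebra k K] (d l : ℕ), 2 ≤ d → 1 ≤ l → ∀ p q P R : K[X], IsCoprime p q →
  max p.natDegree q.natDegree = d → IsCoprime P R → max P.natDegree R.natDegree = d ^ l →
  (∀ z : Option K, ratP1 P R (d ^ l) z = (ratP1 p q d)^[l] z) → ∀ κ : Ix (d ^ l) → K,
  IsCoprime (nu (d ^ l) κ) (de (d ^ l) κ) → Conjugate P R (nu (d ^ l) κ) (de (d ^ l) κ) (d ^ l) →
  (∀ i, IsAlgebraic k (κ i)) → IsotrivialOver k p q d

end

end Pool.Agent.X263.AL
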