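import Pool.Agent.X328.GN.Stm

/-!
# Project AL: strong uniform boundedness for ALL rational maps outside the non-rigid families

Normal form `nu d κ / de d κ` (fixed points `0`, `1`, `∞`), see project GN. A map is rigid if its parameters
are algebraic over the field generated by the multipliers of its cycles; it is exceptional if it is a
specialisation of a map which is not rigid. McMullen's theorem (1987) says that the maps which are
not rigid are the flexible Lattès maps. By Noetherian induction the parameters of all other maps are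
controlled by finitely many multipliers, then projects GM and GN apply. Statements of the jobs.
-/

set_option autoImplicit false

namespace Pool.Agent.X263.AL

open Finset Polynomial Pool.Agent.W277.UB Pool.Agent.W277.UH
open Pool.Agent.X328.GN (Ix nu de wrA)
open Pool.Agent.X328.FP (vl hQ)

universe u v w

noncomputable section

section

variable {K : Type*} [Field K]

/-- `x` is fixed by the `n`-th iterate of `f = nu d κ / de d κ` (and its orbit avoids `∞`) -/
def Per (d : ℕ) (κ : Ix d → K) (n : ℕ) (x : K) : Prop :=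
  (∀ m < n, (de d κ).eval ((vl (nu d κ) (de d κ))^[m] x) ≠ 0) ∧
    (vl (nu d κ) (de d κ))^[n] x = x

/-- the multiplier: the product of the derivatives `f'` along the orbit -/
def mu (d : ℕ) (κ : Ix d → K) (n : ℕ) (x : K) : K :=
  ∏ m ∈ range n, (wrA (nu d κ) (de d κ)).eval ((vl (nu d κ) (de d κ))^[m] x) /
    (de d κ).eval ((vl (nu d κ) (de d κ))^[m] x) ^ 2

/-- the set of all multipliers of cycles in `K` -/
def mults (d : ℕ) (κ : Ix d → K) : Set K := {y | ∃ n x, 1 ≤ n ∧ Per d κ n x ∧ y = mu d κ n x}

/-- the parameters are algebraic over the field generated by the multipliers -/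
def Rigid [CharZero K] (d : ℕ) (κ : Ix d → K) : Prop :=
  ∀ i, IsAlgebraic (IntermediateField.adjoin ℚ (mults d κ)) (κ i)

/-- `κ` is a specialisation over `ℚ` of parameters `κ'` over an algebraically closed field `Ω` such that
the map is not rigid -/
def Exceptional [CharZero K] (d : ℕ) (κ : Ix d → K) : Prop :=
  ∃ (Ω : Type) (_ : Field Ω) (_ : CharZero Ω) (_ : IsAlgClosed Ω) (κ' : Ix d → Ω),
    ¬ Rigid d κ' ∧ IsCoprime (nu d κ') (de d κ') ∧
    ∀ F : MvPolynomial (Ix d) ℚ, MvPolynomial.aeval κ' F = 0 → MvPolynomial.aeval κ F = 0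

/-- the parameters are roots of polynomials of bounded degree whose coefficients are polynomials of
bounded degree in at most `N` multipliers of cycles of length at most `N` -/
def Rel [CharZero K] (d N : ℕ) (κ : Ix d → K) : Prop :=
  ∃ (r : ℕ) (len : Fin r → ℕ) (x : Fin r → K) (G : Ix d → ℕ → MvPolynomial (Fin r) ℚ), r ≤ N ∧
    (∀ j, 1 ≤ len j ∧ len j ≤ N ∧ Per d κ (len j) (x j)) ∧
    (∀ i m, (G i m).totalDegree ≤ N) ∧
    ∀ i, (∃ m ≤ N, MvPolynomial.aeval (fun j => mu d κ (len j) (x j)) (G i m) ≠ 0) ∧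
      ∑ m ∈ range (N + 1), MvPolynomial.aeval (fun j => mu d κ (len j) (x j)) (G i m) * κ i ^ m = 0

end

/-- **EXT** (Atiyah-Macdonald 5.23 for algebraic extensions). Proof: let `D` be such that the elements of
`s` and `v` are integral over `R[1/D]` and such that `D` is in `v B` (constant coefficient of a minimal
relation of `v`), `B = R[s]`. The kernel `p` of `φ : R[1/D] → K` has a prime `q` of `B[1/D]` over it, and
`B[1/D] / q`, integral over `R[1/D] / p`, embeds into the algebraically closed field `K`. -/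
def S_EXT : Prop := ∀ (R : Type) [CommRing R] [IsDomain R] (Ω : Type) [Field Ω] [Algebra R Ω],
  Function.Injective (algebraMap R Ω) → (∀ y : Ω, IsAlgebraic R y) →
  ∀ (s : Finset Ω) (v : Ω), v ≠ 0 → v ∈ Algebra.adjoin R (s : Set Ω) →
  ∃ D : R, D ≠ 0 ∧ ∀ (K : Type u) [Field K] [IsAlgClosed K] (φ : R →+* K), φ D ≠ 0 →
    ∃ Φ : Algebra.adjoin R (s : Set Ω) →+* K,
      (∀ a : R, Φ (algebraMap R (Algebra.adjoin R (s : Set Ω)) a) = φ a) ∧
      ∀ b : Algebra.adjoin R (s : Set Ω), (b : Ω) = v → Φ b ≠ 0

/-- **SP**: from EXT. Proof: let `A = ℚ[Ix d] / P` (a domain), `Ω` an algebraic closure of its field of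
fractions, `κ'` the images of the variables. For each `i`, `Pool.Agent.X60.GN.alg_rel` gives a relation
with coefficients `G i m` in finitely many multipliers; all of them are the multipliers of finitely many
`x_j`, with cycles of length `len j`. Let `s` be the set of all `f^m (x_j)` and
`1 / de (f^m (x_j))`, `m < len j`, and `v` the product over `i` of one nonzero value of a `G i m`. EXT gives
`D`; the `Φ (x_j)` are the points. -/
def S_SP : Prop := ∀ (d : ℕ), 2 ≤ d → ∀ (P : Ideal (MvPolynomial (Ix d) ℚ)) [P.IsPrime],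
  ∀ (Ω : Type) [Field Ω] [CharZero Ω] [IsAlgClosed Ω] [Algebra (MvPolynomial (Ix d) ℚ ⧸ P) Ω],
  Function.Injective (algebraMap (MvPolynomial (Ix d) ℚ ⧸ P) Ω) →
  (∀ y : Ω, IsAlgebraic (MvPolynomial (Ix d) ℚ ⧸ P) y) →
  Rigid d (fun i => algebraMap (MvPolynomial (Ix d) ℚ ⧸ P) Ω
    (Ideal.Quotient.mk P (MvPolynomial.X i))) →
  ∃ (D : MvPolynomial (Ix d) ℚ) (N : ℕ), D ∉ P ∧
    ∀ (K : Type u) [Field K] [CharZero K] [IsAlgClosed K] (κ : Ix d → K),
      (∀ F ∈ P, MvPolynomial.aeval κ F = 0) → MvPolynomial.aeval κ D ≠ 0 → Rel d N κ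

/-- **UNI**: from SP by Noetherian induction on ideals: for every ideal `I` of `ℚ[Ix d]` there is an `N` for
the `κ` in `V(I)`. (`Rel` is monotone in `N`: put `G i m = 0` for the new `m`. If `I` is not prime take `a`,
`b` not in `I`, `a b ∈ I`. If `I` is prime take the algebraic closure `Ω` of the field of fractions of the
quotient; if the generic `κ'` is not rigid, then every coprime `κ` in `V(I)` is exceptional (coprimality of
`κ'`: the resultant of `nu`, `de` with degrees `d`, `d` does not vanish at `κ`, hence not at `κ'`).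
Otherwise SP gives `D`, and `I + (D)` is larger.) -/
def S_UNI : Prop := ∀ (d : ℕ), 2 ≤ d → ∃ N : ℕ, ∀ (K : Type u) [Field K] [CharZero K]
  [IsAlgClosed K] (κ : Ix d → K), IsCoprime (nu d κ) (de d κ) → ¬ Exceptional d κ → Rel d N κ

/-- **HTR**: the height inequality from `Rel` (HT1, HT2; `Rel` over `K` itself). -/
def S_HTR : Prop := ∀ (d N : ℕ), ∃ A : ℕ, ∀ (k : Type v) (K : Type u) [Field k] [CharZero k]
  [Field K] [CharZero K] [Algebra k K] (Q : PlaceData.{w} k K) (κ : Ix d → K) (r : ℕ)
  (y : Fin r → K) (G : Ix d → ℕ → MvPolynomial (Fin r) ℚ), r ≤ N →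
  (∀ i m, (G i m).totalDegree ≤ N) →
  (∀ i, (∃ m ≤ N, MvPolynomial.aeval y (G i m) ≠ 0) ∧
      ∑ m ∈ range (N + 1), MvPolynomial.aeval y (G i m) * κ i ^ m = 0) →
  ∑ i, hQ Q (κ i) ≤ A * ∑ j, hQ Q (y j)

/-- **DSC**: descent of `Rel` from the algebraic closure to an extension of bounded degree: every `x j` is
a root of `P - X Q ≠ 0`, of degree at most `d ^ len j`, where `P / Q` is the iterate (`S_IT`). -/
def S_DSC : Prop := ∀ (d N : ℕ), 2 ≤ d → ∃ B : ℕ, ∀ (k : Type v) (M : Type u) [Field k]
  [Field M] [CharZero M] [Algebra k M] (κ : Ix d → M), IsCoprime (nu d κ) (de d κ) →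
  Rel d N (fun i => algebraMap M (AlgebraicClosure M) (κ i)) →
  ∃ (M' : Type u) (_ : Field M') (_ : CharZero M') (_ : Algebra k M') (_ : Algebra M M'),
    IsScalarTower k M M' ∧ FiniteDimensional M M' ∧ Module.finrank M M' ≤ B ∧
    Rel d N (fun i => algebraMap M M' (κ i))

end

end Pool.Agent.X263.AL
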