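import Mathlib
import Pool.Agent.X328.GN.Ineq
import Pool.Agent.X263.GN.Chn
import Pool.Agent.X263.AL.Stm

/-! # Iterates of any order: functoriality, multipliers, heights -/

set_option autoImplicit false

namespace Pool.Agent.X263.AL

open Finset Polynomial Pool.Agent.W277.UB
open Pool.Agent.X328.GN (Ix nu de hm it wrA S_IT S_HT1 S_HT2 tP tQ map_tP map_tQ map_nu map_de)
open Pool.Agent.X328.FP (vl hQ hQ_nonneg)

universe u v w

section

variable {A A' : Type*} [CommRing A] [CommRing A']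

lemma map_hm (φ : A →+* A') (d : ℕ) (F P Q : A[X]) :
    (hm d F P Q).map φ = hm d (F.map φ) (P.map φ) (Q.map φ) := by
  unfold hm
  rw [Polynomial.map_sum]
  refine Finset.sum_congr rfl fun i _ => ?_
  rw [Polynomial.map_mul, Polynomial.map_mul, Polynomial.map_pow, Polynomial.map_pow,
    Polynomial.map_C, coeff_map]

lemma map_it (φ : A →+* A') (d : ℕ) (u w : A[X]) (n : ℕ) :
    (it d u w n).1.map φ = (it d (u.map φ) (w.map φ) n).1 ∧
    (it d u w n).2.map φ = (it d (u.map φ) (w.map φ) n).2 := by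
  induction n with
  | zero => exact ⟨Polynomial.map_X φ, Polynomial.map_one φ⟩
  | succ n ih =>
    constructor
    · show (hm d u (it d u w n).1 (it d u w n).2).map φ = _
      rw [map_hm, ih.1, ih.2]
      rfl
    · show (hm d w (it d u w n).1 (it d u w n).2).map φ = _
      rw [map_hm, ih.1, ih.2]
      rfl

lemma map_it_nd (φ : A →+* A') (d n : ℕ) (t : Ix d → A) :
    (it d (nu d t) (de d t) n).1.map φ =
      (it d (nu d fun i => φ (t i)) (de d fun i => φ (t i)) n).1 ∧
    (it d (nu d t) (de d t) n).2.map φ =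
      (it d (nu d fun i => φ (t i)) (de d fun i => φ (t i)) n).2 := by
  have h := map_it φ d (nu d t) (de d t) n
  rw [map_nu, map_de] at h
  exact h

end

/-- the multiplier along an orbit -/
lemma it_eval {K : Type u} [Field K] (d : ℕ) (u w : K[X]) (hu : u.natDegree ≤ d)
    (hw : w.natDegree ≤ d) (x : K) (n : ℕ) (hwz : ∀ m < n, w.eval ((vl u w)^[m] x) ≠ 0) :
    (it d u w n).2.eval x ≠ 0 ∧
    (it d u w n).1.eval x = (vl u w)^[n] x * (it d u w n).2.eval x ∧
    (wrA (it d u w n).1 (it d u w n).2).eval x / (it d u w n).2.eval x ^ 2 =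
      ∏ m ∈ range n, (wrA u w).eval ((vl u w)^[m] x) / w.eval ((vl u w)^[m] x) ^ 2 := by
  induction n with
  | zero => simp [it, wrA]
  | succ n ih =>
    obtain ⟨h1, h2, h3⟩ := ih fun m hm => hwz m (by omega)
    obtain ⟨h4, h5, h6⟩ := Pool.Agent.X263.GN.step_eval d u w _ _ hu hw _ _ h2 h1 (hwz n (by omega))
    refine ⟨h4, ?_, ?_⟩
    · rw [Function.iterate_succ_apply']
      exact h5
    · rw [Finset.prod_range_succ, mul_comm, ← h3]
      exact h6

/-- the coefficients of `P - X Q` have height at most a constant times the height of the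
parameters, hence also its roots -/
theorem ineq_Ph (hHT1 : S_HT1.{u, v, w}) (hHT2 : S_HT2.{u, v, w}) (d l : ℕ) :
    ∃ A₁ : ℕ, ∀ (k : Type v) (K : Type u) [Field k] [CharZero k] [Field K] [CharZero K]
      [Algebra k K] (Q : PlaceData.{w} k K) (κ : Ix d → K),
      (it d (nu d κ) (de d κ) l).1 - X * (it d (nu d κ) (de d κ) l).2 ≠ 0 →
      ((it d (nu d κ) (de d κ) l).1 - X * (it d (nu d κ) (de d κ) l).2).natDegree ≤ d ^ l →
      ∀ x : K, ((it d (nu d κ) (de d κ) l).1 - X * (it d (nu d κ) (de d κ) l).2).eval x = 0 →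
        hQ Q x ≤ A₁ * ∑ i, hQ Q (κ i) := by
  classical
  set g : (MvPolynomial (Ix d) ℚ)[X] := (it d (nu d fun i => MvPolynomial.X i)
    (de d fun i => MvPolynomial.X i) l).1 - X * (it d (nu d fun i => MvPolynomial.X i)
    (de d fun i => MvPolynomial.X i) l).2 with hg
  refine ⟨∑ m ∈ range (d ^ l + 1), (g.coeff m).totalDegree, ?_⟩
  intro k K _ _ _ _ _ Q κ hc hdeg x hx
  set F : K[X] := (it d (nu d κ) (de d κ) l).1 - X * (it d (nu d κ) (de d κ) l).2 with hF
  have h1 : ∀ m, F.coeff m = MvPolynomial.aeval κ (g.coeff m) := by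
    intro m
    have h2 := map_it_nd (MvPolynomial.aeval κ : _ →ₐ[ℚ] K).toRingHom d l
      (fun i => (MvPolynomial.X i : MvPolynomial (Ix d) ℚ))
    have h3 : (fun i => (MvPolynomial.aeval κ : MvPolynomial (Ix d) ℚ →ₐ[ℚ] K).toRingHom
        (MvPolynomial.X i)) = κ := by
      funext i
      simp
    rw [h3] at h2
    have h4 : F = g.map (MvPolynomial.aeval κ : MvPolynomial (Ix d) ℚ →ₐ[ℚ] K).toRingHom := by
      rw [hF, hg, Polynomial.map_sub, Polynomial.map_mul, Polynomial.map_X, h2.1, h2.2]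
    rw [h4, coeff_map]
    rfl
  have h2 : hQ Q x ≤ ∑ m ∈ range (d ^ l + 1), hQ Q (F.coeff m) := by
    apply hHT2 k K Q (d ^ l) (fun m => F.coeff m) x
    · by_contra hcon
      push Not at hcon
      apply hc
      ext m
      rw [coeff_zero]
      by_cases hm : m ≤ d ^ l
      · exact hcon m hm
      · exact coeff_eq_zero_of_natDegree_lt (by omega)
    · rw [← eval_eq_sum_range' (Nat.lt_succ_of_le hdeg)]
      exact hx
  refine h2.trans ?_
  push_cast
  rw [Finset.sum_mul]
  refine Finset.sum_le_sum fun m _ => ?_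
  rw [h1]
  exact hHT1 k K Q (Ix d) _ κ

theorem ineq_tP (hHT1 : S_HT1.{u, v, w}) (d l : ℕ) :
    ∃ A₂ : ℕ, ∀ (k : Type v) (K : Type u) [Field k] [CharZero k] [Field K] [CharZero K]
      [Algebra k K] (Q : PlaceData.{w} k K) (κ : Ix d → K) (x : K) (m : ℕ), m ≤ d ^ l →
        hQ Q ((tP (it d (nu d κ) (de d κ) l).1 (it d (nu d κ) (de d κ) l).2 x).coeff m) ≤
          A₂ * (hQ Q x + ∑ i, hQ Q (κ i)) ∧
        hQ Q ((tQ (it d (nu d κ) (de d κ) l).2 x).coeff m) ≤
          A₂ * (hQ Q x + ∑ i, hQ Q (κ i)) := by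
  classical
  set R := MvPolynomial (Option (Ix d)) ℚ with hR
  set τ : Ix d → R := fun i => MvPolynomial.X (some i) with hτ
  set ξ : R := MvPolynomial.X none with hξ
  set gP : R[X] := tP (it d (nu d τ) (de d τ) l).1 (it d (nu d τ) (de d τ) l).2 ξ with hgP
  set gQ : R[X] := tQ (it d (nu d τ) (de d τ) l).2 ξ with hgQ
  refine ⟨∑ m ∈ range (d ^ l + 1), ((gP.coeff m).totalDegree + (gQ.coeff m).totalDegree), ?_⟩
  intro k K _ _ _ _ _ Q κ x m hm
  set y : Option (Ix d) → K := fun o => o.elim x κ with hy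
  set φ : R →+* K := (MvPolynomial.aeval y : R →ₐ[ℚ] K).toRingHom with hφ
  have hφτ : (fun i => φ (τ i)) = κ := by
    funext i
    exact MvPolynomial.aeval_X y (some i)
  have hφξ : φ ξ = x := MvPolynomial.aeval_X y none
  obtain ⟨e1, e2⟩ := map_it_nd φ d l τ
  rw [hφτ] at e1 e2
  have h1 : (tP (it d (nu d κ) (de d κ) l).1 (it d (nu d κ) (de d κ) l).2 x).coeff m =
      MvPolynomial.aeval y (gP.coeff m) := by
    rw [← e1, ← e2, ← hφξ, ← map_tP, coeff_map]
    rfl
  have h2 : (tQ (it d (nu d κ) (de d κ) l).2 x).coeff m = MvPolynomial.aeval y (gQ.coeff m) := by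
    rw [← e2, ← hφξ, ← map_tQ, coeff_map]
    rfl
  have h3 : ∑ o, hQ Q (y o) = hQ Q x + ∑ i, hQ Q (κ i) := by
    rw [Fintype.sum_option]
    rfl
  have h4 : 0 ≤ hQ Q x + ∑ i, hQ Q (κ i) :=
    add_nonneg (hQ_nonneg Q x) (Finset.sum_nonneg fun i _ => hQ_nonneg Q _)
  have h5 : (gP.coeff m).totalDegree + (gQ.coeff m).totalDegree ≤
      ∑ m ∈ range (d ^ l + 1), ((gP.coeff m).totalDegree + (gQ.coeff m).totalDegree) :=
    Finset.single_le_sum (f := fun m => (gP.coeff m).totalDegree + (gQ.coeff m).totalDegree)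
      (fun _ _ => Nat.zero_le _) (Finset.mem_range.2 (Nat.lt_succ_of_le hm))
  have h6 : ((gP.coeff m).totalDegree : ℤ) ≤
      ((∑ m ∈ range (d ^ l + 1), ((gP.coeff m).totalDegree + (gQ.coeff m).totalDegree) : ℕ) : ℤ) := by
    exact_mod_cast (Nat.le_add_right _ _).trans h5
  have h7 : ((gQ.coeff m).totalDegree : ℤ) ≤
      ((∑ m ∈ range (d ^ l + 1), ((gP.coeff m).totalDegree + (gQ.coeff m).totalDegree) : ℕ) : ℤ) := by
    exact_mod_cast (Nat.le_add_left _ _).trans h5
  constructor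
  · rw [h1, ← h3]
    refine (hHT1 k K Q _ _ y).trans ?_
    rw [h3]
    exact mul_le_mul_of_nonneg_right h6 h4
  · rw [h2, ← h3]
    refine (hHT1 k K Q _ _ y).trans ?_
    rw [h3]
    exact mul_le_mul_of_nonneg_right h7 h4

end Pool.Agent.X263.AL
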