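import Mathlib
import Pool.Agent.X263.AL.Itl
import Pool.Agent.X328.GN.Fin3

/-! # All maps: the final assembly -/

set_option autoImplicit false

namespace Pool.Agent.X263.AL

open Finset Polynomial Pool.Agent.W277.UH
open Pool.Agent.X328.GN (Ix nu de hm it wrA S_IT S_HT1 S_HT2 tP tQ map_tP map_tQ map_nu map_de pdk
  tP_coprime tP_zero tQ_zero tP_mult tP_conj natDegree_tP natDegree_tQ)
open Pool.Agent.X328.FP (vl hQ hQ_nonneg hQ_pos)
open Pool.Agent.X328.GM (le_mapHeight)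
open Pool.Agent.Results.MP_9b502d_nt.LargeCriticalHeight (Conjugate mapHeight height mapP1 transfer)
open Pool.Agent.Results.MP_9b502d_nt.LargeMultiplier (HasLargeMultiplier)

universe u v w

lemma nu_de_deg {K : Type*} [Field K] (d : ℕ) (hd : 2 ≤ d) (κ : Ix d → K) :
    (nu d κ).Monic ∧ (nu d κ).natDegree = d ∧ (de d κ).natDegree < d := by
  have h1 : (∑ i : Fin (d - 1), C (κ (Sum.inl i)) * X ^ (i.1 + 1) : K[X]).degree < d := by
    refine (degree_sum_le _ _).trans_lt ?_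
    rw [Finset.sup_lt_iff (by exact_mod_cast WithBot.bot_lt_coe d)]
    intro i _
    refine (degree_C_mul_X_pow_le _ _).trans_lt ?_
    exact_mod_cast (by have := i.2; omega : i.1 + 1 < d)
  have h2 : (∑ i : Fin (d - 1), C (κ (Sum.inr i)) * X ^ (i.1 + 1) : K[X]).natDegree < d := by
    refine lt_of_le_of_lt (natDegree_sum_le_of_forall_le _ _ (n := d - 1) fun i _ => ?_)
      (by omega)
    refine (natDegree_C_mul_X_pow_le _ _).trans ?_
    have := i.2
    omega
  refine ⟨?_, ?_, ?_⟩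
  · exact monic_X_pow_add h1
  · unfold nu
    rw [natDegree_add_eq_left_of_degree_lt (by rw [degree_X_pow]; exact h1), natDegree_X_pow]
  · unfold de
    refine lt_of_le_of_lt (natDegree_add_le _ _) (max_lt ?_ h2)
    rw [natDegree_C]
    omega

lemma Ph_ne {K : Type u} [Field K] (hIT : S_IT.{u}) (d : ℕ) (hd : 2 ≤ d) (κ : Ix d → K)
    (hcop : IsCoprime (nu d κ) (de d κ)) (l : ℕ) (hl : 1 ≤ l) :
    (it d (nu d κ) (de d κ) l).1 - X * (it d (nu d κ) (de d κ) l).2 ≠ 0 ∧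
    ((it d (nu d κ) (de d κ) l).1 - X * (it d (nu d κ) (de d κ) l).2).natDegree ≤ d ^ l := by
  obtain ⟨h1, h2, h3⟩ := nu_de_deg d hd κ
  obtain ⟨h4, h5, h6, h7, -⟩ := hIT K d hd _ _ hcop h1 h2 h3 l
  constructor
  · intro h
    have h8 : (it d (nu d κ) (de d κ) l).2 ∣ (it d (nu d κ) (de d κ) l).1 :=
      ⟨X, by rw [mul_comm]; exact sub_eq_zero.1 h⟩
    have h9 := h4.symm.isUnit_of_dvd' dvd_rfl h8
    have h10 := natDegree_eq_zero_of_isUnit h9
    have h11 : (it d (nu d κ) (de d κ) l).1.natDegree ≤ 1 := by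
      rw [sub_eq_zero.1 h]
      refine natDegree_mul_le.trans ?_
      rw [natDegree_X, h10]
    rw [h6] at h11
    have h12 : d ^ 1 ≤ d ^ l := Nat.pow_le_pow_right (by omega) hl
    rw [pow_one] at h12
    omega
  · refine (natDegree_sub_le _ _).trans (max_le h6.le ?_)
    refine natDegree_mul_le.trans ?_
    rw [natDegree_X]
    omega

theorem fin_all (hUNI : S_UNI.{u}) (hHTR : S_HTR.{u, u, u}) (hDSC : S_DSC.{u, v})
    (hIT : S_IT.{u}) (hHT1 : S_HT1.{u, u, u}) (hHT2 : S_HT2.{u, u, u}) (d : ℕ) (hd : 2 ≤ d) :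
    ∀ n B : ℕ, ∃ N : ℕ, ∀ (k : Type v) (L : Type u) [Field k]
    [CharZero k] [Field L] [Algebra k L] (t : L), Transcendental k t →
    FiniteDimensional (IntermediateField.adjoin k {t}) L →
    Module.finrank (IntermediateField.adjoin k {t}) L ≤ n → ∀ p q : L[X], IsCoprime p q →
    max p.natDegree q.natDegree = d →
    ∀ (M : Type u) [Field M] [CharZero M] [Algebra k M] [Algebra L M] [IsScalarTower k L M]
    [FiniteDimensional L M], Module.finrank L M ≤ B → ∀ κ : Ix d → M,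
    IsCoprime (nu d κ) (de d κ) →
    Conjugate (p.map (algebraMap L M)) (q.map (algebraMap L M)) (nu d κ) (de d κ) d →
    ¬ Exceptional d κ → (∃ i, Transcendental k (κ i)) →
    {z : Option L | (Set.range fun m : ℕ => (mapP1 p q d)^[m] z).Finite}.encard ≤ (N : ℕ∞) := by
  classical
  obtain ⟨N₂, hN₂⟩ := hUNI d hd
  intro n B
  obtain ⟨B₂, hB₂⟩ := hDSC d N₂ hd
  choose A₁f hA₁f using fun l => ineq_Ph.{u, u, u} hHT1 hHT2 d l
  choose A₂f hA₂f using fun l => ineq_tP.{u, u, u} hHT1 d l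
  obtain ⟨A₃, hA₃⟩ := hHTR d N₂
  set A₁ : ℕ := (range (N₂ + 1)).sup A₁f with hA₁def
  set A₂ : ℕ := (range (N₂ + 1)).sup A₂f with hA₂def
  set n₁ := n * B * B₂ with hn₁
  obtain ⟨C₀, hC₀⟩ := pdk.{u, v} n₁
  set B₁ := C₀ * (A₂ * ((A₁ + 1) * (A₃ * (N₂ * C₀)))) with hB₁
  set B' := max (max B₁ B₂) N₂ with hB'
  obtain ⟨N₀, hN₀⟩ := Pool.Agent.Results.MP_9b502d_nt.LargeMultiplier.result.{u, v}
  refine ⟨N₀ (n * B) d B', ?_⟩
  intro k L _ _ _ _ t ht hfd hn p q hco hmax M _ _ _ _ _ _ hfr κ hcop hcj hexc htr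
  -- the variable in `M`
  have htM : Transcendental k (algebraMap L M t) := by
    intro h
    exact ht ((isAlgebraic_algebraMap_iff (algebraMap L M).injective).mp h)
  have hteM : Module.finrank (IntermediateField.adjoin k {algebraMap L M t}) M =
      Module.finrank (IntermediateField.adjoin k {t}) L * Module.finrank L M :=
    Pool.Agent.Y555.CH.t_HTE k L M t
  have htfM : FiniteDimensional (IntermediateField.adjoin k {algebraMap L M t}) M := by
    apply FiniteDimensional.of_finrank_pos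
    rw [hteM]
    exact Nat.mul_pos Module.finrank_pos Module.finrank_pos
  have hleM : Module.finrank (IntermediateField.adjoin k {algebraMap L M t}) M ≤ n * B := by
    rw [hteM]
    exact Nat.mul_le_mul hn hfr
  set tM := algebraMap L M t with htMdef
  obtain ⟨hmon, hnud, hded⟩ := nu_de_deg d hd κ
  have hmaxκ : max (nu d κ).natDegree (de d κ).natDegree = d := by
    rw [hnud]
    exact max_eq_left hded.le
  -- the relation over the algebraic closure
  have hrelc : Rel d N₂ (fun i => algebraMap M (AlgebraicClosure M) (κ i)) := by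
    apply hN₂
    · have h1 := (Polynomial.isCoprime_map (algebraMap M (AlgebraicClosure M))).mpr hcop
      rwa [map_nu, map_de] at h1
    · rintro ⟨Ω, i1, i2, i3, κ', h1, h2, h3⟩
      refine hexc ⟨Ω, i1, i2, i3, κ', h1, h2, fun F hF => ?_⟩
      have h4 := h3 F hF
      have h5 : MvPolynomial.aeval (fun i => algebraMap M (AlgebraicClosure M) (κ i)) F =
          algebraMap M (AlgebraicClosure M) (MvPolynomial.aeval κ F) := by
        have h6 := MvPolynomial.aeval_algebraMap_apply (R := ℚ) (AlgebraicClosure M) κ F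
        exact h6
      rw [h5] at h4
      exact (map_eq_zero_iff _ (algebraMap M (AlgebraicClosure M)).injective).1 h4
  -- the extension
  obtain ⟨M₁, i1, i0, i2, i3, t1, f1, hdeg1, r, len, x, G, hrN, hper, hGdeg, hrel⟩ :=
    hB₂ k M κ hcop hrelc
  set j := algebraMap M M₁ with hj
  have hinj : Function.Injective j := j.injective
  set κ₁ : Ix d → M₁ := fun i => j (κ i) with hκ₁
  have hnu : (nu d κ).map j = nu d κ₁ := map_nu j d κ
  have hde : (de d κ).map j = de d κ₁ := map_de j d κ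
  have hcop₁ : IsCoprime (nu d κ₁) (de d κ₁) := by
    rw [← hnu, ← hde]
    exact (Polynomial.isCoprime_map j).mpr hcop
  obtain ⟨hmon₁, hnud₁, hded₁⟩ := nu_de_deg d hd κ₁
  -- the variable in `M₁`
  have ht₁ : Transcendental k (j tM) := by
    intro h
    exact htM ((isAlgebraic_algebraMap_iff hinj).mp h)
  have hte₁ : Module.finrank (IntermediateField.adjoin k {j tM}) M₁ =
      Module.finrank (IntermediateField.adjoin k {tM}) M * Module.finrank M M₁ :=
    Pool.Agent.Y555.CH.t_HTE k M M₁ tM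
  have htf₁ : FiniteDimensional (IntermediateField.adjoin k {j tM}) M₁ := by
    apply FiniteDimensional.of_finrank_pos
    rw [hte₁]
    exact Nat.mul_pos Module.finrank_pos Module.finrank_pos
  have hle₁ : Module.finrank (IntermediateField.adjoin k {j tM}) M₁ ≤ n₁ := by
    rw [hte₁]
    exact Nat.mul_le_mul hleM hdeg1
  obtain ⟨Q, hh⟩ := hC₀ k M₁ (j tM) ht₁ htf₁ hle₁
  have hhgt : ∀ y : M₁, height k (some y) = Pool.Agent.Y706.CH.hgt k (some y) := fun y => rfl
  have ck : CharZero (algebraicClosure k M₁) :=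
    charZero_of_injective_algebraMap (algebraMap k (algebraicClosure k M₁)).injective
  have hposQ : ∀ y : M₁, Transcendental k y → 0 < hQ Q y := fun y hy =>
    hQ_pos Q y fun c hc => hy (by rw [← hc]; exact mem_algebraicClosure_iff.mp c.2)
  set S := ∑ i, hQ Q (mu d κ₁ (len i) (x i)) with hS
  have hκS : ∑ i, hQ Q (κ₁ i) ≤ A₃ * S := hA₃ (algebraicClosure k M₁) M₁ Q κ₁ r _ G hrN hGdeg hrel
  have hκpos : 0 < ∑ i, hQ Q (κ₁ i) := by
    obtain ⟨i, hi⟩ := htr
    have h2 : Transcendental k (κ₁ i) := fun h => hi ((isAlgebraic_algebraMap_iff hinj).mp h)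
    exact lt_of_lt_of_le (hposQ _ h2)
      (Finset.single_le_sum (f := fun i => hQ Q (κ₁ i)) (fun i _ => hQ_nonneg Q _) (mem_univ i))
  have hr0 : 0 < r := by
    rcases Nat.eq_zero_or_pos r with h | h
    · exfalso
      subst h
      rw [hS, Fin.sum_univ_zero, mul_zero] at hκS
      omega
    · exact h
  have hne : Nonempty (Fin r) := ⟨⟨0, hr0⟩⟩
  -- the multiplier of largest height
  obtain ⟨j₀, -, hj₀max⟩ := Finset.exists_max_image (univ : Finset (Fin r))
    (fun i => height k (some (mu d κ₁ (len i) (x i)))) univ_nonempty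
  obtain ⟨hl1, hlN, hperj⟩ := hper j₀
  set l := len j₀ with hl
  set x₀ := x j₀ with hx₀
  set h₀ := height k (some (mu d κ₁ l x₀)) with hh₀
  obtain ⟨hQl, hPl, hml⟩ := it_eval d (nu d κ₁) (de d κ₁) hnud₁.le hded₁.le x₀ l hperj.1
  rw [hperj.2] at hPl
  set Pl := (it d (nu d κ₁) (de d κ₁) l).1 with hPldef
  set Ql := (it d (nu d κ₁) (de d κ₁) l).2 with hQldef
  obtain ⟨hcol, -, hPld, hQld, -⟩ := hIT M₁ d hd _ _ hcop₁ hmon₁ hnud₁ hded₁ l
  have hcol' : IsCoprime Pl Ql := hcol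
  have hPld' : Pl.natDegree = d ^ l := hPld
  have hQld' : Ql.natDegree < d ^ l := hQld
  set P' := tP Pl Ql x₀ with hP'
  set Q' := tQ Ql x₀ with hQ'
  have hmul : P'.coeff 1 / Q'.coeff 0 = mu d κ₁ l x₀ := by
    rw [hP', hQ', tP_mult _ _ x₀ hPl hQl, hml]
    rfl
  have hS1 : S ≤ (N₂ * C₀ : ℕ) * (h₀ : ℤ) := by
    have h1 : ∀ i ∈ (univ : Finset (Fin r)), hQ Q (mu d κ₁ (len i) (x i)) ≤ C₀ * (h₀ : ℤ) := by
      intro i _
      have h2 := hj₀max i (mem_univ i)
      have h3 := (hh (mu d κ₁ (len i) (x i))).1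
      rw [← hhgt] at h3
      have h4 : (height k (some (mu d κ₁ (len i) (x i))) : ℤ) ≤ h₀ := by exact_mod_cast h2
      exact h3.trans (mul_le_mul_of_nonneg_left h4 (Int.natCast_nonneg _))
    have h2 := Finset.sum_le_card_nsmul _ _ _ h1
    rw [Finset.card_univ, Fintype.card_fin, nsmul_eq_mul] at h2
    refine h2.trans ?_
    have h3 : (r : ℤ) ≤ N₂ := by exact_mod_cast hrN
    have h4 : (0 : ℤ) ≤ C₀ * (h₀ : ℤ) := mul_nonneg (Int.natCast_nonneg _) (Int.natCast_nonneg _)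
    calc (r : ℤ) * (C₀ * (h₀ : ℤ)) ≤ N₂ * (C₀ * (h₀ : ℤ)) := mul_le_mul_of_nonneg_right h3 h4
      _ = (N₂ * C₀ : ℕ) * (h₀ : ℤ) := by push_cast; ring
  have hPhl := Ph_ne hIT d hd κ₁ hcop₁ l hl1
  have hx₀S : hQ Q x₀ ≤ A₁ * ∑ i, hQ Q (κ₁ i) := by
    have h1 := hA₁f l (algebraicClosure k M₁) M₁ Q κ₁ hPhl.1 hPhl.2 x₀ (by
      rw [eval_sub, eval_mul, eval_X]
      exact sub_eq_zero.2 hPl)
    refine h1.trans (mul_le_mul_of_nonneg_right ?_ hκpos.le)
    exact_mod_cast Finset.le_sup (f := A₁f) (Finset.mem_range.2 (Nat.lt_succ_of_le hlN))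
  have hcoefQ : ∀ y : M₁, hQ Q y ≤ A₂ * (hQ Q x₀ + ∑ i, hQ Q (κ₁ i)) →
      height k (some y) ≤ B₁ * h₀ := by
    intro y hy
    have h1 := (hh y).2
    rw [← hhgt] at h1
    have h2 : (height k (some y) : ℤ) ≤ B₁ * h₀ := by
      have e1 : hQ Q x₀ + ∑ i, hQ Q (κ₁ i) ≤ (A₁ + 1) * (A₃ * ((N₂ * C₀ : ℕ) * (h₀ : ℤ))) := by
        have e2 : ∑ i, hQ Q (κ₁ i) ≤ A₃ * ((N₂ * C₀ : ℕ) * (h₀ : ℤ)) :=
          hκS.trans (mul_le_mul_of_nonneg_left hS1 (Int.natCast_nonneg _))
        have e3 : (A₁ : ℤ) * ∑ i, hQ Q (κ₁ i) ≤ A₁ * (A₃ * ((N₂ * C₀ : ℕ) * (h₀ : ℤ))) :=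
          mul_le_mul_of_nonneg_left e2 (Int.natCast_nonneg _)
        have e4 : ((A₁ : ℤ) + 1) * (A₃ * ((N₂ * C₀ : ℕ) * (h₀ : ℤ))) =
          A₁ * (A₃ * ((N₂ * C₀ : ℕ) * (h₀ : ℤ))) + A₃ * ((N₂ * C₀ : ℕ) * (h₀ : ℤ)) := by ring
        rw [e4]
        linarith
      calc (height k (some y) : ℤ) ≤ C₀ * hQ Q y := h1
        _ ≤ C₀ * (A₂ * ((A₁ + 1) * (A₃ * ((N₂ * C₀ : ℕ) * (h₀ : ℤ))))) :=
            mul_le_mul_of_nonneg_left (hy.trans (mul_le_mul_of_nonneg_left e1
              (Int.natCast_nonneg _))) (Int.natCast_nonneg _)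
        _ = B₁ * h₀ := by
            rw [hB₁]
            push_cast
            ring
    exact_mod_cast h2
  have hA₂le : (A₂f l : ℤ) ≤ A₂ := by
    exact_mod_cast Finset.le_sup (f := A₂f) (Finset.mem_range.2 (Nat.lt_succ_of_le hlN))
  have hsum0 : 0 ≤ hQ Q x₀ + ∑ i, hQ Q (κ₁ i) := add_nonneg (hQ_nonneg Q x₀) hκpos.le
  have hcoefP : ∀ m ≤ d ^ l, height k (some (P'.coeff m)) ≤ B₁ * h₀ ∧
      height k (some (Q'.coeff m)) ≤ B₁ * h₀ := by
    intro m hm
    obtain ⟨h1, h2⟩ := hA₂f l (algebraicClosure k M₁) M₁ Q κ₁ x₀ m hm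
    exact ⟨hcoefQ _ (h1.trans (mul_le_mul_of_nonneg_right hA₂le hsum0)),
      hcoefQ _ (h2.trans (mul_le_mul_of_nonneg_right hA₂le hsum0))⟩
  have hmapH : mapHeight k P' Q' (d ^ l) ≤ B₁ * h₀ := by
    unfold mapHeight
    apply Finset.sup_le
    intro m hm
    obtain ⟨h1, h2⟩ := hcoefP m (Nat.lt_succ_iff.1 (Finset.mem_range.1 hm))
    exact max_le h1 h2
  -- positivity
  have hh₀pos : 0 < h₀ := by
    by_contra hcon
    have h1 : h₀ = 0 := by omega
    rw [h1] at hS1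
    simp only [Nat.cast_zero, mul_zero] at hS1
    have h5 : (A₃ : ℤ) * S ≤ 0 := mul_nonpos_of_nonneg_of_nonpos (Int.natCast_nonneg _) hS1
    omega
  have hdl1 : 1 ≤ d ^ l := Nat.one_le_pow _ _ (by omega)
  have hmapPos : 0 < mapHeight k P' Q' (d ^ l) := by
    have hgpos : ∀ y : M₁, Transcendental k y → 0 < height k (some y) := by
      intro y hy
      have h1 := hposQ y hy
      have h2 := (hh y).1
      by_contra hcon
      have h3 : height k (some y) = 0 := by omega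
      rw [← hhgt, h3] at h2
      simp only [Nat.cast_zero, mul_zero] at h2
      omega
    have h1 : Transcendental k (mu d κ₁ l x₀) := by
      intro h
      have h2 : height k (some (mu d κ₁ l x₀)) = 0 :=
        (Pool.Agent.Y195.CH.t_HTA k M₁ _ ht₁).1 _ h
      omega
    rw [← hmul] at h1
    by_contra hcon
    have h2 : ¬ Transcendental k (P'.coeff 1) := fun h =>
      hcon (lt_of_lt_of_le (hgpos _ h) (le_mapHeight k P' Q' (d ^ l) 1 hdl1).1)
    have h3 : ¬ Transcendental k (Q'.coeff 0) := fun h =>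
      hcon (lt_of_lt_of_le (hgpos _ h) (le_mapHeight k P' Q' (d ^ l) 0 (Nat.zero_le _)).2)
    rw [Transcendental, not_not] at h2 h3
    apply h1
    rw [div_eq_mul_inv]
    exact h2.mul h3.inv
  -- large multiplier
  obtain ⟨eP, eQ⟩ := map_it_nd j d l κ
  have hB₁le : B₁ ≤ B' := (le_max_left _ _).trans (le_max_left _ _)
  have hLM : HasLargeMultiplier k (it d (nu d κ) (de d κ) l).1 (it d (nu d κ) (de d κ) l).2
      (d ^ l) B' := by
    refine ⟨M₁, i1, i2, i3, t1, f1, hdeg1.trans ((le_max_right _ _).trans (le_max_left _ _)), P',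
      Q', tP_coprime _ _ x₀ hcol', ?_, ?_, tP_zero _ _ x₀ hPl, ?_, hmapPos, ?_⟩
    · rw [hP', natDegree_tP _ _ _ (by rw [hPld']; exact hQld'), hPld']
    · rw [hQ', natDegree_tQ]
      exact hQld'
    · rw [eP, eQ]
      exact tP_conj _ _ x₀ (d ^ l) hPld'.le (by rw [hPld']; exact hQld')
    · rw [hmul]
      exact hmapH.trans (Nat.mul_le_mul_right _ hB₁le)
  obtain ⟨hcoκ, -, hPκ, hQκ, hitκ, -⟩ := hIT M d hd _ _ hcop hmon hnud hded l
  have e : ∀ {K : Type u} [Field K] (p q : K[X]) (D : ℕ), mapP1 p q D = ratP1 p q D := by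
    intro K _ p q D
    funext z
    cases z <;> rfl
  have hbig := hN₀ k M tM htM htfM (n * B) d B' hleM hd (nu d κ) (de d κ) hcop hmaxκ l
    hl1 (hlN.trans (le_max_right _ _)) _ _ hcoκ (by
      rw [hPκ]
      exact max_eq_left hQκ.le) (by
      intro z
      rw [e, e]
      exact hitκ z) hLM
  -- transfer
  obtain ⟨a, b, c', e', hdet, s, hs, hc1, hc2⟩ := hcj
  have hinjL : Function.Injective (algebraMap L M) := (algebraMap L M).injective
  obtain ⟨φ, hφ, hφ2⟩ := Pool.Agent.Y676.CH.t_CNJ M d (by omega) a b c' e' hdet s hs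
    (p.map (algebraMap L M)) (q.map (algebraMap L M)) (nu d κ) (de d κ) (by
      rw [natDegree_map_eq_of_injective hinjL, natDegree_map_eq_of_injective hinjL]
      exact hmax) ((Polynomial.isCoprime_map _).mpr hco) hmaxκ hcop hc1 hc2
  have h10 := transfer (ratP1 p q d) (ratP1 (nu d κ) (de d κ) d)
    (fun z => φ (Option.map (algebraMap L M) z)) (hφ.comp (Option.map_injective hinjL)) (by
      intro z
      show φ (Option.map (algebraMap L M) (ratP1 p q d z)) = _
      rw [← Pool.Agent.Y555.CH.t_P1M, hφ2])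
  rw [e] at hbig ⊢
  exact h10.trans hbig

end Pool.Agent.X263.AL
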