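import Mathlib
import Pool.Agent.X263.AL.Fin
import Pool.Agent.X263.AL.Stm2

/-! # All maps: the intrinsic form -/

set_option autoImplicit false

namespace Pool.Agent.X263.AL

open Finset Polynomial Pool.Agent.W277.UH
open Pool.Agent.X328.GN (Ix nu de hm it wrA S_IT S_HT1 S_HT2 map_nu map_de)
open Pool.Agent.Results.MP_9b502d_nt.LargeCriticalHeight (Conjugate mapP1 IsotrivialOver)

universe u v w

/-- some iterate of the map `p / q` of degree `d` has an exceptional normal form -/
def ExcMap {K : Type*} [Field K] [CharZero K] (p q : K[X]) (d : ℕ) : Prop :=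
  ∃ l : ℕ, 1 ≤ l ∧ ∃ P R : K[X], IsCoprime P R ∧ max P.natDegree R.natDegree = d ^ l ∧
    (∀ z : Option K, mapP1 P R (d ^ l) z = (mapP1 p q d)^[l] z) ∧ ∃ κ : Ix (d ^ l) → K,
    IsCoprime (nu (d ^ l) κ) (de (d ^ l) κ) ∧
    Conjugate P R (nu (d ^ l) κ) (de (d ^ l) κ) (d ^ l) ∧ Exceptional (d ^ l) κ

/-- ITER, explicit form -/
def S_ITX : Prop := ∀ (K : Type u) [Field K] (d : ℕ), 1 ≤ d → ∀ p q : K[X], IsCoprime p q →
  max p.natDegree q.natDegree = d → ∀ l : ℕ, IsCoprime (it d p q l).1 (it d p q l).2 ∧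
    max (it d p q l).1.natDegree (it d p q l).2.natDegree = d ^ l ∧
    ∀ z : Option K, ratP1 (it d p q l).1 (it d p q l).2 (d ^ l) z = (ratP1 p q d)^[l] z

lemma conj_map {M K : Type*} [Field M] [Field K] (φ : M →+* K) {p q u w : M[X]} {d : ℕ}
    (h : Conjugate p q u w d) :
    Conjugate (p.map φ) (q.map φ) (u.map φ) (w.map φ) d := by
  obtain ⟨a, b, c, e, hdet, s, hs, h1, h2⟩ := h
  refine ⟨φ a, φ b, φ c, φ e, ?_, φ s, (map_ne_zero φ).2 hs, ?_, ?_⟩
  · rw [← map_mul, ← map_mul, ← map_sub]
    exact (map_ne_zero φ).2 hdet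
  · have h3 := congrArg (Polynomial.map φ) h1
    rw [Polynomial.map_sum] at h3
    simp only [Polynomial.map_mul, Polynomial.map_pow, Polynomial.map_add, Polynomial.map_C,
      Polynomial.map_X] at h3
    simp only [coeff_map]
    exact h3
  · have h3 := congrArg (Polynomial.map φ) h2
    rw [Polynomial.map_sum] at h3
    simp only [Polynomial.map_mul, Polynomial.map_pow, Polynomial.map_add, Polynomial.map_C,
      Polynomial.map_X] at h3
    simp only [coeff_map]
    exact h3

lemma exc_map {M : Type u} {K : Type v} [Field M] [CharZero M] [Field K] [CharZero K]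
    [Algebra M K] {d : ℕ} {κ : Ix d → M} (h : Exceptional d κ) :
    Exceptional d (fun i => algebraMap M K (κ i)) := by
  obtain ⟨Ω, i1, i2, i3, κ', h1, h2, h3⟩ := h
  refine ⟨Ω, i1, i2, i3, κ', h1, h2, fun F hF => ?_⟩
  have h6 := MvPolynomial.aeval_algebraMap_apply (R := ℚ) K κ F
  have h5 : MvPolynomial.aeval (fun i => algebraMap M K (κ i)) F =
      algebraMap M K (MvPolynomial.aeval κ F) := h6
  rw [h5, h3 F hF, map_zero]

lemma fix_ne {K : Type*} [Field K] {P R : K[X]} {D : ℕ} (hD : 2 ≤ D) (hco : IsCoprime P R)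
    (hmax : max P.natDegree R.natDegree = D) : P - X * R ≠ 0 ∧ (P - X * R).natDegree ≤ D + 1 := by
  have hP : P.natDegree ≤ D := hmax ▸ le_max_left _ _
  have hR : R.natDegree ≤ D := hmax ▸ le_max_right _ _
  constructor
  · intro h
    have h1 : P = X * R := sub_eq_zero.1 h
    have h8 : R ∣ P := ⟨X, by rw [mul_comm]; exact h1⟩
    have h9 := hco.symm.isUnit_of_dvd' dvd_rfl h8
    have h10 := natDegree_eq_zero_of_isUnit h9
    have h11 : P.natDegree ≤ 1 := by
      rw [h1]
      refine natDegree_mul_le.trans ?_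
      rw [natDegree_X, h10]
    rw [h10] at hmax
    omega
  · refine (natDegree_sub_le _ _).trans (max_le (by omega) ?_)
    refine natDegree_mul_le.trans ?_
    rw [natDegree_X]
    omega

lemma fix_root {K : Type*} [Field K] {P R : K[X]} {D : ℕ} {x : K}
    (h : ratP1 P R D (some x) = some x) : (P - X * R).eval x = 0 := by
  by_cases hR : R.eval x = 0
  · rw [ratP1_some0 P R D x hR] at h
    exact absurd h (by simp)
  · rw [ratP1_some P R D x hR] at h
    have h1 : P.eval x / R.eval x = x := Option.some.inj h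
    rw [div_eq_iff hR] at h1
    rw [eval_sub, eval_mul, eval_X, h1, sub_self]

theorem fin_int
    (hALL : ∀ D : ℕ, 2 ≤ D → ∀ n B : ℕ, ∃ N : ℕ, ∀ (k : Type v) (L : Type u) [Field k]
      [CharZero k] [Field L] [Algebra k L] (t : L), Transcendental k t →
      FiniteDimensional (IntermediateField.adjoin k {t}) L →
      Module.finrank (IntermediateField.adjoin k {t}) L ≤ n → ∀ p q : L[X], IsCoprime p q →
      max p.natDegree q.natDegree = D →
      ∀ (M : Type u) [Field M] [CharZero M] [Algebra k M] [Algebra L M] [IsScalarTower k L M]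
      [FiniteDimensional L M], Module.finrank L M ≤ B → ∀ κ : Ix D → M,
      IsCoprime (nu D κ) (de D κ) →
      Conjugate (p.map (algebraMap L M)) (q.map (algebraMap L M)) (nu D κ) (de D κ) D →
      ¬ Exceptional D κ → (∃ i, Transcendental k (κ i)) →
      {z : Option L | (Set.range fun m : ℕ => (mapP1 p q D)^[m] z).Finite}.encard ≤ (N : ℕ∞))
    (hITX : S_ITX.{u}) (hTHREE : S_THREE.{u}) (hNRM : S_NRM.{u}) (hISO : S_ISO.{u, v})
    (d : ℕ) (hd : 2 ≤ d) (n : ℕ) :
    ∃ N : ℕ, ∀ (k : Type v) (L : Type u) [Field k] [CharZero k] [Field L] [Algebra k L] (t : L)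
    [CharZero (AlgebraicClosure L)], Transcendental k t →
    FiniteDimensional (IntermediateField.adjoin k {t}) L →
    Module.finrank (IntermediateField.adjoin k {t}) L ≤ n → ∀ p q : L[X], IsCoprime p q →
    max p.natDegree q.natDegree = d →
    ¬ IsotrivialOver k (p.map (algebraMap L (AlgebraicClosure L)))
      (q.map (algebraMap L (AlgebraicClosure L))) d →
    ¬ ExcMap (p.map (algebraMap L (AlgebraicClosure L)))
      (q.map (algebraMap L (AlgebraicClosure L))) d →
    {z : Option L | (Set.range fun m : ℕ => (mapP1 p q d)^[m] z).Finite}.encard ≤ (N : ℕ∞) := by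
  classical
  obtain ⟨B, hB⟩ := hTHREE d hd
  have h1 : ∀ l : ℕ, ∃ N : ℕ, 1 ≤ l → _ := fun l => by
    by_cases hl : 1 ≤ l
    · obtain ⟨N, hN⟩ := hALL (d ^ l) (hd.trans (Nat.le_self_pow (by omega) d)) n
        ((d ^ l + 1 + 1) ^ (d ^ l + 1))
      exact ⟨N, fun _ => hN⟩
    · exact ⟨0, fun h => absurd h hl⟩
  choose Nf hNf using h1
  refine ⟨(range (B + 1)).sup Nf, ?_⟩
  intro k L _ _ _ _ t cK ht hfd hn p q hco hmax hiso hexc
  set K := AlgebraicClosure L with hK
  set j := algebraMap L K with hj
  have hinj : Function.Injective j := j.injective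
  have hcoK : IsCoprime (p.map j) (q.map j) := (Polynomial.isCoprime_map j).mpr hco
  have hmaxK : max (p.map j).natDegree (q.map j).natDegree = d := by
    rw [natDegree_map_eq_of_injective hinj, natDegree_map_eq_of_injective hinj]
    exact hmax
  obtain ⟨l, hl1, hlB, z, hzinj, hz⟩ := hB K (p.map j) (q.map j) hcoK hmaxK
  obtain ⟨hcoPR, hmaxPR, hitL⟩ := hITX L d (by omega) p q hco hmax l
  obtain ⟨hcoPRK, hmaxPRK, hitK⟩ := hITX K d (by omega) (p.map j) (q.map j) hcoK hmaxK l
  obtain ⟨eP, eR⟩ := map_it j d p q l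
  set P := (it d p q l).1 with hP
  set R := (it d p q l).2 with hR
  set D := d ^ l with hD
  have hD2 : 2 ≤ D := hd.trans (Nat.le_self_pow (by omega) d)
  rw [← eP, ← eR] at hcoPRK hmaxPRK hitK
  obtain ⟨hF0, hFd⟩ := fix_ne hD2 hcoPR hmaxPR
  set F := P - X * R with hF
  let M : IntermediateField L K := IntermediateField.adjoin L (F.rootSet K)
  obtain ⟨h1, h2⟩ := Pool.Agent.Y555.CH.t_DEG L K F (D + 1) hF0 hFd
  have h1' : FiniteDimensional L M := h1
  have h2' : Module.finrank L M ≤ (D + 1 + 1) ^ (D + 1) := h2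
  have cM : CharZero M := charZero_of_injective_algebraMap (algebraMap k M).injective
  set jM := algebraMap L M with hjM
  set iM : M →+* K := algebraMap M K with hiM
  have hji : iM.comp jM = j := (IsScalarTower.algebraMap_eq L M K).symm
  have hmapm : ∀ f : L[X], (f.map jM).map iM = f.map j := by
    intro f
    rw [Polynomial.map_map, hji]
  -- the fixed points are in `M`
  have hfix : ∀ i, ratP1 (P.map j) (R.map j) D (z i) = z i := by
    intro i
    rw [hitK]
    exact hz i
  have hex : ∀ i, ∃ y : Option M, Option.map iM y = z i := by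
    intro i
    have h3 := hfix i
    cases h : z i with
    | none => exact ⟨none, rfl⟩
    | some x =>
      rw [h] at h3
      have h4 := fix_root h3
      have h5 : x ∈ F.rootSet K := by
        rw [mem_rootSet]
        refine ⟨hF0, ?_⟩
        rw [aeval_def, eval₂_eq_eval_map, hF, Polynomial.map_sub, Polynomial.map_mul,
          Polynomial.map_X]
        exact h4
      exact ⟨some ⟨x, IntermediateField.subset_adjoin L _ h5⟩, rfl⟩
  choose y hy using hex
  have hyinj : Function.Injective y := by
    intro a b hab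
    apply hzinj
    rw [← hy a, ← hy b, hab]
  have hyfix : ∀ i, ratP1 (P.map jM) (R.map jM) D (y i) = y i := by
    intro i
    apply Option.map_injective iM.injective
    have h3 := Pool.Agent.Y555.CH.t_P1M M K iM (P.map jM) (R.map jM) D (y i)
    rw [hmapm, hmapm, hy i, hfix i] at h3
    rw [← h3, hy i]
  have hjMinj : Function.Injective jM := jM.injective
  have hcoM : IsCoprime (P.map jM) (R.map jM) := (Polynomial.isCoprime_map jM).mpr hcoPR
  have hmaxM : max (P.map jM).natDegree (R.map jM).natDegree = D := by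
    rw [natDegree_map_eq_of_injective hjMinj, natDegree_map_eq_of_injective hjMinj]
    exact hmaxPR
  obtain ⟨κ, hcop, hcj⟩ := hNRM M D hD2 (P.map jM) (R.map jM) hcoM hmaxM y hyinj hyfix
  have e : ∀ {K : Type u} [Field K] (p q : K[X]) (D : ℕ), mapP1 p q D = ratP1 p q D := by
    intro K _ p q D
    funext z
    cases z <;> rfl
  -- the normal form over `K`
  have hcopK : IsCoprime (nu D fun i => iM (κ i)) (de D fun i => iM (κ i)) := by
    have h3 := (Polynomial.isCoprime_map iM).mpr hcop
    rwa [map_nu, map_de] at h3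
  have hcjK : Conjugate (P.map j) (R.map j) (nu D fun i => iM (κ i)) (de D fun i => iM (κ i)) D := by
    have h3 := conj_map iM hcj
    rwa [hmapm, hmapm, map_nu, map_de] at h3
  have hexcM : ¬ Exceptional D κ := by
    intro h
    refine hexc ⟨l, hl1, P.map j, R.map j, hcoPRK, hmaxPRK, ?_, fun i => iM (κ i), hcopK, hcjK,
      exc_map h⟩
    intro z
    rw [e, e]
    exact hitK z
  have htr : ∃ i, Transcendental k (κ i) := by
    by_contra hcon
    push Not at hcon
    apply hiso
    refine hISO k K d l hd hl1 (p.map j) (q.map j) (P.map j) (R.map j) hcoK hmaxK hcoPRK hmaxPRK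
      hitK (fun i => iM (κ i)) hcopK hcjK ?_
    intro i
    have h3 := hcon i
    rw [Transcendental, not_not] at h3
    have hst : IsScalarTower k M K := IsScalarTower.of_algebraMap_eq fun x => by
      rw [IsScalarTower.algebraMap_apply k L K, IsScalarTower.algebraMap_apply k L M,
        ← IsScalarTower.algebraMap_apply L M K]
    exact h3.algebraMap
  have h3 := hNf l hl1 k L t ht hfd hn P R hcoPR hmaxPR M h2' κ hcop hcj hexcM htr
  have h4 : {z : Option L | (Set.range fun m : ℕ => (mapP1 p q d)^[m] z).Finite} ⊆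
      {z : Option L | (Set.range fun m : ℕ => (mapP1 P R D)^[m] z).Finite} := by
    intro z hz
    have e' : mapP1 P R D = (mapP1 p q d)^[l] := by
      rw [e, e]
      exact funext hitL
    show (Set.range fun m : ℕ => (mapP1 P R D)^[m] z).Finite
    rw [e']
    refine Set.Finite.subset hz ?_
    rintro _ ⟨m, rfl⟩
    exact ⟨l * m, by simp only [Function.iterate_mul]⟩
  refine (Set.encard_le_encard h4).trans (h3.trans ?_)
  exact_mod_cast Finset.le_sup (f := Nf) (Finset.mem_range.2 (Nat.lt_succ_of_le hlB))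

end Pool.Agent.X263.AL
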