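import Pool.Agent.X263.AL.FinB
import Pool.Agent.X261.AL.Iter

/-! # ITER, explicit form -/

set_option autoImplicit false

namespace Pool.Agent.X263.AL

open Finset Polynomial Pool.Agent.W277.UH
open Pool.Agent.X328.GN (hm it)
open Pool.Agent.X261.AL

universe u

theorem t_ITX : S_ITX.{u} := by
  intro K _ d hd p q hpq h l
  induction l with
  | zero =>
    refine ⟨isCoprime_one_right, ?_, ?_⟩
    · show max (X : K[X]).natDegree (1 : K[X]).natDegree = d ^ 0
      simp
    · show ∀ z : Option K, ratP1 (X : K[X]) (1 : K[X]) (d ^ 0) z = (ratP1 p q d)^[0] z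
      rintro (_ | x)
      · rw [Function.iterate_zero, id, ratP1_none0]
        rw [pow_zero]
        show (1 : K[X]).coeff 1 = 0
        rw [coeff_one]
        simp
      · rw [Function.iterate_zero, id, ratP1_some _ _ _ _ (by simp)]
        simp
  | succ n ih =>
    obtain ⟨hPR, hN, hz⟩ := ih
    have e1 : (it d p q (n + 1)).1 = hm1 d p (it d p q n).1 (it d p q n).2 := rfl
    have e2 : (it d p q (n + 1)).2 = hm1 d q (it d p q n).1 (it d p q n).2 := rfl
    rw [e1, e2]
    generalize (it d p q n).1 = P at hPR hN hz ⊢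
    generalize (it d p q n).2 = R at hPR hN hz ⊢
    have hP : P.natDegree ≤ d ^ n := hN ▸ le_max_left _ _
    have hR : R.natDegree ≤ d ^ n := hN ▸ le_max_right _ _
    have hN1 : 1 ≤ d ^ n := Nat.one_le_pow _ _ hd
    have hab := coeff_or hN1 hN
    have hdd : d ^ (n + 1) = d * d ^ n := by ring
    refine ⟨hm1_cop hd hpq h hPR, ?_, ?_⟩
    · rw [hdd]
      refine le_antisymm (max_le (hm1_deg _ _ _ _ _ hP hR) (hm1_deg _ _ _ _ _ hP hR)) ?_
      rcases forms_ne hd hpq h _ _ hab with h6 | h6
      · rw [← hm1_coeff d (d ^ n) p P R hP hR] at h6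
        exact (le_natDegree_of_ne_zero h6).trans (le_max_left _ _)
      · rw [← hm1_coeff d (d ^ n) q P R hP hR] at h6
        exact (le_natDegree_of_ne_zero h6).trans (le_max_right _ _)
    · intro z
      rw [Function.iterate_succ_apply', ← hz z]
      cases z with
      | none =>
        rw [ratP1_none', hdd, hm1_coeff d (d ^ n) p P R hP hR, hm1_coeff d (d ^ n) q P R hP hR,
          ratP1_none', step_val h _ _ hab]
      | some x =>
        rw [ratP1_some', hm1_eval, hm1_eval, ratP1_some', step_val h _ _ (not_both hPR)]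

end Pool.Agent.X263.AL
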